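import Pool.Agent.H752.SV.Stubs

/-!
# V8: the parts in polynomial time
-/

namespace Pool.Agent.H752.SV

open Pool.Agent.NPC Pool.Agent.H620R2.Gauge

theorem v8_sum (q n : ℕ) (s : ℕ) :
    ((List.range s).map fun i => dg q n i * q ^ i).sum = n % q ^ s := by
  induction s with
  | zero => simp [Nat.mod_one]
  | succ s ih =>
    rw [List.range_succ, List.map_append, List.sum_append, ih, Nat.mod_pow_succ]
    simp only [List.map_cons, List.map_nil, List.sum_cons, List.sum_nil, add_zero, dg]
    ring

theorem v8_le (q r n : ℕ) : part q r n ≤ n := by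
  have h1 : part q r n ≤ ((List.range n.size).map fun i => dg q n i * q ^ i).sum := by
    unfold part
    apply List.sum_le_sum
    intro i _
    split_ifs
    · exact le_rfl
    · exact Nat.zero_le _
  rw [v8_sum] at h1
  exact h1.trans (Nat.mod_le _ _)

section
variable {α : Type} [TEnc α]

theorem v8_size {n : α → ℕ} (hn : NPC.Poly n) : NPC.Poly (fun a => (n a).size) :=
  (NPC.Poly.length (NPC.Poly.natBits hn)).congr fun a => Nat.size_eq_bits_len (n a)

theorem v8_usize {x : α → List Bool} (hx : NPC.Poly x) : UPoly (fun a => (x a).length.size) :=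
  UPoly.of_le (v8_size (NPC.Poly.length hx)) (UPoly.length hx)
    (fun _ => Nat.size_le.2 Nat.lt_two_pow_self)

theorem v8_umin {x : α → List Bool} (hx : NPC.Poly x) {j : α → ℕ} (hj : NPC.Poly j) :
    UPoly (fun a => min (j a) (x a).length.size) :=
  UPoly.of_le (NPC.Poly.min hj (v8_usize hx).toPoly) (v8_usize hx) (fun _ => min_le_right _ _)

theorem v8_iter (q k : ℕ) : (fun s : ℕ => s * q)^[k] 1 = q ^ k := by
  induction k with
  | zero => rfl
  | succ k ih => rw [Function.iterate_succ_apply', ih, pow_succ]

theorem v8_pow (q : ℕ) {e : α → ℕ} (he : UPoly e) : NPC.Poly (fun a => q ^ e a) := by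
  obtain ⟨r, hr⟩ := NPC.Poly.sz_le (show NPC.Poly (fun a => List.replicate (e a) ()) from he)
  have h1 := NPC.Poly.iterLen (l := fun a => List.replicate (e a) ()) (s := fun _ : α => 1)
    (F := fun _ s => s * q) he (NPC.Poly.const 1)
    (NPC.Poly.mul (NPC.Poly.snd NPC.Poly.id) (NPC.Poly.const q))
    (Polynomial.C 4 * (Polynomial.C q.size * r + Polynomial.C 1) + Polynomial.C 1) (by
      intro a k hk
      rw [v8_iter]
      have e1 := sz_nat_le (q ^ k)
      have e2 := hr a
      have e3 := length_lt_sz (List.replicate (e a) ())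
      have e4 : (q ^ k).size ≤ q.size * k + 1 := by
        apply Nat.size_le.2
        have h5 : q ^ k ≤ (2 ^ q.size) ^ k := Nat.pow_le_pow_left (Nat.lt_size_self q).le k
        rw [← pow_mul] at h5
        exact lt_of_le_of_lt h5 (Nat.pow_lt_pow_right (by norm_num) (Nat.lt_succ_self _))
      have e5 : q.size * k ≤ q.size * r.eval (sz a) := Nat.mul_le_mul_left _ (by omega)
      simp only [Polynomial.eval_add, Polynomial.eval_mul, Polynomial.eval_C]
      omega)
  refine h1.congr fun a => ?_
  rw [List.length_replicate]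
  exact v8_iter q (e a)

end

theorem v8_poly (q r : ℕ) : NPC.Poly (fun x : List Bool => part q r x.length) := by
  have hx1 : NPC.Poly (fun y : List Bool × ℕ => y.1) := NPC.Poly.fst NPC.Poly.id
  have hi1 : NPC.Poly (fun y : List Bool × ℕ => y.2) := NPC.Poly.snd NPC.Poly.id
  have hp : NPC.Poly (fun y : List Bool × ℕ => q ^ min y.2 y.1.length.size) :=
    v8_pow q (v8_umin hx1 hi1)
  have hF : NPC.Poly (fun y : List Bool × ℕ => if y.2 % 2 = r then
      (y.1.length / q ^ min y.2 y.1.length.size % q) * q ^ min y.2 y.1.length.size else 0) :=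
    NPC.Poly.ite (p := fun y : List Bool × ℕ => y.2 % 2 = r)
      (NPC.Poly.decide_eq (NPC.Poly.mod hi1 (NPC.Poly.const 2)) (NPC.Poly.const r))
      (NPC.Poly.mul (NPC.Poly.mod (NPC.Poly.div (NPC.Poly.length hx1) hp) (NPC.Poly.const q)) hp)
      (NPC.Poly.const 0)
  refine (NPC.Poly.sum (NPC.Poly.map (l := fun x : List Bool => List.range x.length.size)
    (F := fun (x : List Bool) i => if i % 2 = r then
      (x.length / q ^ min i x.length.size % q) * q ^ min i x.length.size else 0)
    (v8_usize NPC.Poly.id).range hF)).congr fun x => ?_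
  unfold part
  congr 1
  apply List.map_congr_left
  intro i hi
  rw [Nat.min_eq_left (List.mem_range.mp hi).le]
  rfl

theorem t_part : St_part := by
  intro q r _
  refine ⟨v8_le q r, ?_⟩
  have h1 : UPoly (fun x : List Bool => part q r x.length) :=
    UPoly.of_le (v8_poly q r) (UPoly.length NPC.Poly.id) (fun x => v8_le q r x.length)
  refine (NPC.Poly.map (F := fun _ _ => true) h1 (NPC.Poly.const true)).congr fun x => ?_
  simp

end Pool.Agent.H752.SV
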