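import Pool.Agent.H752.SV.Stubs

/-!
# V7: the checks in polynomial time
-/

namespace Pool.Agent.H752.SV

open Pool.Agent.NPC Pool.Agent.H620R2.Gauge

section
variable {α : Type} [TEnc α]

theorem v7_size {n : α → ℕ} (hn : NPC.Poly n) : NPC.Poly (fun a => (n a).size) :=
  (NPC.Poly.length (NPC.Poly.natBits hn)).congr fun a => Nat.size_eq_bits_len (n a)

theorem v7_usize {x : α → List Bool} (hx : NPC.Poly x) : UPoly (fun a => (x a).length.size) :=
  UPoly.of_le (v7_size (NPC.Poly.length hx)) (UPoly.length hx)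
    (fun _ => Nat.size_le.2 Nat.lt_two_pow_self)

theorem v7_umin {x : α → List Bool} (hx : NPC.Poly x) {j : α → ℕ} (hj : NPC.Poly j) :
    UPoly (fun a => min (j a) (x a).length.size) :=
  UPoly.of_le (NPC.Poly.min hj (v7_usize hx).toPoly) (v7_usize hx) (fun _ => min_le_right _ _)

theorem v7_nlb {q : ℕ} {p : Polynomial ℕ}
    (h : NPC.Poly (fun z : List Bool × ℕ => valid q p z.1.length z.2))
    {x b : α → List Bool} {i : α → ℕ} (hx : NPC.Poly x) (hb : NPC.Poly b) (hi : NPC.Poly i) :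
    NPC.Poly (fun a => nlb q p (x a) (b a) (i a)) := by
  have hu : UPoly (fun a => ((x a).length + 1) ^ 3) := by
    have h1 : UPoly (fun a => (x a).length + 1) := UPoly.add (UPoly.length hx) (UPoly.const 1)
    have h2 := UPoly.mul (UPoly.mul h1 h1) h1
    have e : (fun a => ((x a).length + 1) ^ 3) =
        fun a => ((x a).length + 1) * ((x a).length + 1) * ((x a).length + 1) := by
      funext a
      ring
    rw [e]
    exact h2
  have hx1 : NPC.Poly (fun y : α × ℕ => x y.1) := hx.comp (NPC.Poly.fst NPC.Poly.id)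
  have hb1 : NPC.Poly (fun y : α × ℕ => b y.1) := hb.comp (NPC.Poly.fst NPC.Poly.id)
  have hi1 : NPC.Poly (fun y : α × ℕ => i y.1) := hi.comp (NPC.Poly.fst NPC.Poly.id)
  have ht : NPC.Poly (fun y : α × ℕ => y.2) := NPC.Poly.snd NPC.Poly.id
  have hq : NPC.Poly (fun y : α × ℕ => qi (x y.1).length y.2) :=
    NPC.Poly.mod ht (NPC.Poly.add (NPC.Poly.length hx1) (NPC.Poly.const 1))
  have hv : NPC.Poly (fun y : α × ℕ => valid q p (x y.1).length y.2) :=
    NPC.Poly.comp (g := fun z : List Bool × ℕ => valid q p z.1.length z.2)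
      (f := fun y : α × ℕ => (x y.1, y.2)) h (NPC.Poly.pair hx1 ht)
  have hg : NPC.Poly (fun y : α × ℕ => (b y.1).getD y.2 false) :=
    NPC.Poly.getD hb1 ht (NPC.Poly.const false)
  exact NPC.Poly.not (NPC.Poly.any (l := fun a => List.range (((x a).length + 1) ^ 3))
    (p := fun a t => decide (qi (x a).length t = i a) && valid q p (x a).length t &&
      (b a).getD t false) hu.range
    (NPC.Poly.and (NPC.Poly.and (NPC.Poly.decide_eq hq hi1) hv) hg))

theorem v7_kb {q : ℕ} {p : Polynomial ℕ} (r : ℕ)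
    (h : NPC.Poly (fun z : List Bool × ℕ => valid q p z.1.length z.2))
    {x b : α → List Bool} {i : α → ℕ} (hx : NPC.Poly x) (hb : NPC.Poly b) (hi : NPC.Poly i) :
    NPC.Poly (fun a => kb q p r (x a) (b a) (i a)) :=
  NPC.Poly.and (v7_nlb h hx hb hi) (NPC.Poly.not (NPC.Poly.decide_eq
    (NPC.Poly.mod hi (NPC.Poly.const 2)) (NPC.Poly.const r)))

theorem v7_dg {q : ℕ} (h : NPC.Poly (fun z : ℕ × ℕ => dg q z.1 z.2)) {n i : α → ℕ}
    (hn : NPC.Poly n) (hi : NPC.Poly i) : NPC.Poly (fun a => dg q (n a) (i a)) :=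
  NPC.Poly.comp (g := fun z : ℕ × ℕ => dg q z.1 z.2) (f := fun a => (n a, i a)) h
    (NPC.Poly.pair hn hi)

theorem v7_lam {q : ℕ} {p : Polynomial ℕ} {r : ℕ}
    (h : NPC.Poly (fun z : List Bool × ℕ => lamS q p r z.1 z.2)) {x : α → List Bool} {i : α → ℕ}
    (hx : NPC.Poly x) (hi : NPC.Poly i) : NPC.Poly (fun a => lamS q p r (x a) (i a)) :=
  NPC.Poly.comp (g := fun z : List Bool × ℕ => lamS q p r z.1 z.2) (f := fun a => (x a, i a)) h
    (NPC.Poly.pair hx hi)

theorem v7_all {x : α → List Bool} (hx : NPC.Poly x) : NPC.Poly (fun a => (x a).all id) :=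
  NPC.Poly.all (l := x) (p := fun _ c => id c) hx (NPC.Poly.snd NPC.Poly.id)

end

theorem v7_congr (s : ℕ) (f g : ℕ → Bool) (h : ∀ j < s, f j = g j) :
    (List.range s).all f = (List.range s).all g := by
  rw [Bool.eq_iff_iff, List.all_eq_true, List.all_eq_true]
  constructor
  · intro h1 j hj
    rw [← h j (List.mem_range.mp hj)]
    exact h1 j hj
  · intro h1 j hj
    rw [h j (List.mem_range.mp hj)]
    exact h1 j hj

theorem v7_chkZ (q : ℕ) (p : Polynomial ℕ) (r N : ℕ)
    (h1 : NPC.Poly (fun z : ℕ × ℕ => dg q z.1 z.2))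
    (h2 : NPC.Poly (fun z : List Bool × ℕ => lamS q p r z.1 z.2))
    (h3 : NPC.Poly (fun z : List Bool × ℕ => valid q p z.1.length z.2)) :
    NPC.Poly (chkZ q p r N) := by
  have hx : NPC.Poly (fun z : List Bool × List Bool => z.1) := NPC.Poly.fst NPC.Poly.id
  have hb : NPC.Poly (fun z : List Bool × List Bool => z.2) := NPC.Poly.snd NPC.Poly.id
  -- level of `j`
  have hx1 : NPC.Poly (fun y : (List Bool × List Bool) × ℕ => y.1.1) :=
    NPC.Poly.fst (NPC.Poly.fst NPC.Poly.id)
  have hj1 : NPC.Poly (fun y : (List Bool × List Bool) × ℕ => y.2) := NPC.Poly.snd NPC.Poly.id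
  -- level of `i`
  have hx2 : NPC.Poly (fun y : ((List Bool × List Bool) × ℕ) × ℕ => y.1.1.1) :=
    NPC.Poly.fst (NPC.Poly.fst (NPC.Poly.fst NPC.Poly.id))
  have hb2 : NPC.Poly (fun y : ((List Bool × List Bool) × ℕ) × ℕ => y.1.1.2) :=
    NPC.Poly.snd (NPC.Poly.fst (NPC.Poly.fst NPC.Poly.id))
  have hj2 : NPC.Poly (fun y : ((List Bool × List Bool) × ℕ) × ℕ => y.1.2) :=
    NPC.Poly.snd (NPC.Poly.fst NPC.Poly.id)
  have hi2 : NPC.Poly (fun y : ((List Bool × List Bool) × ℕ) × ℕ => y.2) :=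
    NPC.Poly.snd NPC.Poly.id
  have hinner : NPC.Poly (fun y : ((List Bool × List Bool) × ℕ) × ℕ =>
      kb q p r y.1.1.1 y.1.1.2 y.2 && decide (N ≤ y.2) &&
        decide (lamS q p r y.1.1.1 y.2 = y.1.2)) :=
    NPC.Poly.and (NPC.Poly.and (v7_kb r h3 hx2 hb2 hi2)
      (NPC.Poly.decide_le (NPC.Poly.const N) hi2)) (NPC.Poly.decide_eq (v7_lam h2 hx2 hi2) hj2)
  have hany : NPC.Poly (fun y : (List Bool × List Bool) × ℕ =>
      (List.range (min y.2 y.1.1.length.size)).any fun i =>
        kb q p r y.1.1 y.1.2 i && decide (N ≤ i) && decide (lamS q p r y.1.1 i = y.2)) :=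
    NPC.Poly.any (l := fun y : (List Bool × List Bool) × ℕ =>
        List.range (min y.2 y.1.1.length.size))
      (p := fun (y : (List Bool × List Bool) × ℕ) i =>
        kb q p r y.1.1 y.1.2 i && decide (N ≤ i) && decide (lamS q p r y.1.1 i = y.2))
      (v7_umin hx1 hj1).range hinner
  have hmid : NPC.Poly (fun y : (List Bool × List Bool) × ℕ =>
      decide (dg q y.1.1.length y.2 = 0) ||
        (List.range (min y.2 y.1.1.length.size)).any fun i =>
        kb q p r y.1.1 y.1.2 i && decide (N ≤ i) && decide (lamS q p r y.1.1 i = y.2)) :=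
    NPC.Poly.or (NPC.Poly.decide_eq (v7_dg h1 (NPC.Poly.length hx1) hj1) (NPC.Poly.const 0)) hany
  have hout := NPC.Poly.and (v7_all hx) (NPC.Poly.all
    (l := fun z : List Bool × List Bool => List.range z.1.length.size)
    (p := fun (z : List Bool × List Bool) j => decide (dg q z.1.length j = 0) ||
        (List.range (min j z.1.length.size)).any fun i =>
        kb q p r z.1 z.2 i && decide (N ≤ i) && decide (lamS q p r z.1 i = j))
    (v7_usize hx).range hmid)
  refine hout.congr fun z => ?_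
  unfold chkZ
  congr 1
  apply v7_congr
  intro j hj
  rw [Nat.min_eq_left hj.le]

theorem v7_chkW (q : ℕ) (p : Polynomial ℕ) (r : ℕ)
    (h1 : NPC.Poly (fun z : ℕ × ℕ => dg q z.1 z.2))
    (h2 : NPC.Poly (fun z : List Bool × ℕ => lamS q p r z.1 z.2))
    (h3 : NPC.Poly (fun z : List Bool × ℕ => valid q p z.1.length z.2)) :
    NPC.Poly (chkW q p r) := by
  have hx : NPC.Poly (fun z : List Bool × List Bool => z.1) := NPC.Poly.fst NPC.Poly.id
  -- level of `j`
  have hx1 : NPC.Poly (fun y : (List Bool × List Bool) × ℕ => y.1.1) :=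
    NPC.Poly.fst (NPC.Poly.fst NPC.Poly.id)
  have hb1 : NPC.Poly (fun y : (List Bool × List Bool) × ℕ => y.1.2) :=
    NPC.Poly.snd (NPC.Poly.fst NPC.Poly.id)
  have hj1 : NPC.Poly (fun y : (List Bool × List Bool) × ℕ => y.2) := NPC.Poly.snd NPC.Poly.id
  -- level of `i`
  have hx2 : NPC.Poly (fun y : ((List Bool × List Bool) × ℕ) × ℕ => y.1.1.1) :=
    NPC.Poly.fst (NPC.Poly.fst (NPC.Poly.fst NPC.Poly.id))
  have hb2 : NPC.Poly (fun y : ((List Bool × List Bool) × ℕ) × ℕ => y.1.1.2) :=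
    NPC.Poly.snd (NPC.Poly.fst (NPC.Poly.fst NPC.Poly.id))
  have hj2 : NPC.Poly (fun y : ((List Bool × List Bool) × ℕ) × ℕ => y.1.2) :=
    NPC.Poly.snd (NPC.Poly.fst NPC.Poly.id)
  have hi2 : NPC.Poly (fun y : ((List Bool × List Bool) × ℕ) × ℕ => y.2) :=
    NPC.Poly.snd NPC.Poly.id
  have hinner : NPC.Poly (fun y : ((List Bool × List Bool) × ℕ) × ℕ =>
      kb q p r y.1.1.1 y.1.1.2 y.2 && decide (lamS q p r y.1.1.1 y.2 = y.1.2) &&
        decide (dg q y.1.1.1.length y.2 = dg q y.1.1.1.length y.1.2)) :=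
    NPC.Poly.and (NPC.Poly.and (v7_kb r h3 hx2 hb2 hi2)
      (NPC.Poly.decide_eq (v7_lam h2 hx2 hi2) hj2))
      (NPC.Poly.decide_eq (v7_dg h1 (NPC.Poly.length hx2) hi2)
        (v7_dg h1 (NPC.Poly.length hx2) hj2))
  have hany : NPC.Poly (fun y : (List Bool × List Bool) × ℕ =>
      (List.range (min y.2 y.1.1.length.size)).any fun i =>
        kb q p r y.1.1 y.1.2 i && decide (lamS q p r y.1.1 i = y.2) &&
          decide (dg q y.1.1.length i = dg q y.1.1.length y.2)) :=
    NPC.Poly.any (l := fun y : (List Bool × List Bool) × ℕ =>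
        List.range (min y.2 y.1.1.length.size))
      (p := fun (y : (List Bool × List Bool) × ℕ) i =>
        kb q p r y.1.1 y.1.2 i && decide (lamS q p r y.1.1 i = y.2) &&
          decide (dg q y.1.1.length i = dg q y.1.1.length y.2))
      (v7_umin hx1 hj1).range hinner
  have hmid : NPC.Poly (fun y : (List Bool × List Bool) × ℕ =>
      decide (dg q y.1.1.length y.2 = 0) ||
        (kb q p r y.1.1 y.1.2 y.2 &&
          decide (dg q y.1.1.length (lamS q p r y.1.1 y.2) = dg q y.1.1.length y.2)) ||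
        (List.range (min y.2 y.1.1.length.size)).any fun i =>
        kb q p r y.1.1 y.1.2 i && decide (lamS q p r y.1.1 i = y.2) &&
          decide (dg q y.1.1.length i = dg q y.1.1.length y.2)) :=
    NPC.Poly.or (NPC.Poly.or
      (NPC.Poly.decide_eq (v7_dg h1 (NPC.Poly.length hx1) hj1) (NPC.Poly.const 0))
      (NPC.Poly.and (v7_kb r h3 hx1 hb1 hj1) (NPC.Poly.decide_eq
        (v7_dg h1 (NPC.Poly.length hx1) (v7_lam h2 hx1 hj1))
        (v7_dg h1 (NPC.Poly.length hx1) hj1)))) hany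
  have hout := NPC.Poly.and (v7_all hx) (NPC.Poly.all
    (l := fun z : List Bool × List Bool => List.range z.1.length.size)
    (p := fun (z : List Bool × List Bool) j => decide (dg q z.1.length j = 0) ||
        (kb q p r z.1 z.2 j &&
          decide (dg q z.1.length (lamS q p r z.1 j) = dg q z.1.length j)) ||
        (List.range (min j z.1.length.size)).any fun i =>
        kb q p r z.1 z.2 i && decide (lamS q p r z.1 i = j) &&
          decide (dg q z.1.length i = dg q z.1.length j))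
    (v7_usize hx).range hmid)
  refine hout.congr fun z => ?_
  unfold chkW
  congr 1
  apply v7_congr
  intro j hj
  rw [Nat.min_eq_left hj.le]

theorem t_poly2 (h6 : St_poly1) : St_poly2 := by
  intro q p r N hq
  obtain ⟨h1, h2, -, h3⟩ := h6 q p r hq
  exact ⟨v7_chkZ q p r N h1 h2 h3, v7_chkW q p r h1 h2 h3⟩

end Pool.Agent.H752.SV
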